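import Mathlib

set_option autoImplicit false

/-!
# A spectrally arbitrary sign pattern with a superpattern that is not spectrally arbitrary

`S = M₄ ⊕ T₂` is spectrally arbitrary.  The superpattern `S'` is `M₄' ⊕ T₂`, where `M₄'` is obtained
from `M₄` by adding two plus signs.  If the first three coefficients of the characteristic polynomial
of a realization of `M₄'` are zero, then its determinant is positive; so `M₄'` has no nilpotent
realization, and no realization of `S'` has the characteristic polynomial `x^6`.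
-/

namespace Pool.Agent.Results.MP_557f7f_co.SpectralSuperpattern

open Polynomial Matrix

/-- `A` is a realization of the sign pattern `S`. -/
def Realizes {n : ℕ} (A : Matrix (Fin n) (Fin n) ℝ) (S : Matrix (Fin n) (Fin n) SignType) : Prop :=
  ∀ i j, SignType.sign (A i j) = S i j

/-- The sign pattern `S` is spectrally arbitrary: every monic real polynomial of degree `n` is the
characteristic polynomial of a realization of `S`. -/
def SpectrallyArbitrary {n : ℕ} (S : Matrix (Fin n) (Fin n) SignType) : Prop :=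
  ∀ p : ℝ[X], p.Monic → p.natDegree = n →
    ∃ A : Matrix (Fin n) (Fin n) ℝ, Realizes A S ∧ A.charpoly = p

/-- `S'` is a superpattern of `S`: it agrees with `S` at every nonzero entry of `S`. -/
def IsSuperpattern {n : ℕ} (S' S : Matrix (Fin n) (Fin n) SignType) : Prop :=
  ∀ i j, S i j ≠ 0 → S' i j = S i j

/-- The pattern `M₄`. -/
def M4 : Matrix (Fin 4) (Fin 4) SignType :=
  !![1, 1, -1, 0;
     -1, -1, 1, 0;
     0, 0, 0, -1;
     1, 1, 0, 0]

/-- The superpattern `M₄'` of `M₄`. -/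
def M4' : Matrix (Fin 4) (Fin 4) SignType :=
  !![1, 1, -1, 1;
     -1, -1, 1, 0;
     0, 1, 0, -1;
     1, 1, 0, 0]

/-- The pattern `T₂`. -/
def T2 : Matrix (Fin 2) (Fin 2) SignType := !![1, 1; -1, -1]

/-- The pattern `M₄ ⊕ T₂`. -/
def S : Matrix (Fin 6) (Fin 6) SignType :=
  !![1, 1, -1, 0, 0, 0;
     -1, -1, 1, 0, 0, 0;
     0, 0, 0, -1, 0, 0;
     1, 1, 0, 0, 0, 0;
     0, 0, 0, 0, 1, 1;
     0, 0, 0, 0, -1, -1]

/-- The superpattern `M₄' ⊕ T₂`. -/
def S' : Matrix (Fin 6) (Fin 6) SignType :=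
  !![1, 1, -1, 1, 0, 0;
     -1, -1, 1, 0, 0, 0;
     0, 1, 0, -1, 0, 0;
     1, 1, 0, 0, 0, 0;
     0, 0, 0, 0, 1, 1;
     0, 0, 0, 0, -1, -1]

theorem charpoly4 (a b c p d e f q g h k : ℝ) :
    (!![a, b, c, p; d, e, f, 0; 0, q, 0, g; h, k, 0, 0] : Matrix (Fin 4) (Fin 4) ℝ).charpoly =
      X ^ 4 - C (a + e) * X ^ 3 + C (a * e - b * d - p * h - f * q) * X ^ 2
        - C (-q * (a * f - c * d) + p * (d * k - e * h) + c * g * h + f * g * k) * X
        + C (-h * (b * f * g - c * e * g - p * f * q) + k * g * (a * f - c * d)) := by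
  have h1 : charmatrix (!![a, b, c, p; d, e, f, 0; 0, q, 0, g; h, k, 0, 0] :
      Matrix (Fin 4) (Fin 4) ℝ) =
      !![X - C a, -C b, -C c, -C p; -C d, X - C e, -C f, 0; 0, -C q, X, -C g;
        -C h, -C k, 0, X] := by
    ext i j : 2
    fin_cases i <;> fin_cases j <;> simp
  rw [Matrix.charpoly, h1]
  simp [Matrix.det_succ_row_zero, Fin.sum_univ_succ, Fin.succAbove]
  ring

theorem charpoly2 (a b c d : ℝ) :
    (!![a, b; c, d] : Matrix (Fin 2) (Fin 2) ℝ).charpoly =
      X ^ 2 - C (a + d) * X + C (a * d - b * c) := by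
  have h1 : charmatrix (!![a, b; c, d] : Matrix (Fin 2) (Fin 2) ℝ) =
      !![X - C a, -C b; -C c, X - C d] := by
    ext i j : 2
    fin_cases i <;> fin_cases j <;> simp
  rw [Matrix.charpoly, h1, Matrix.det_fin_two]
  simp
  ring

/-- `T₂` is spectrally arbitrary. -/
theorem realize_T2 (u v : ℝ) : ∃ A : Matrix (Fin 2) (Fin 2) ℝ, Realizes A T2 ∧
    A.charpoly = X ^ 2 + C u * X + C v := by
  have n1 := abs_nonneg u
  have n2 := abs_nonneg v
  have l1 := le_abs_self u
  have l2 := neg_abs_le v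
  set d : ℝ := 1 + |u| + |v| with hd
  have hd0 : 0 < d := by linarith
  have ha : 1 + |v| ≤ d - u := by linarith
  have ha0 : 0 < d - u := by linarith
  have hb : 0 < v + (d - u) * d := by
    have : (1 + |v|) * 1 ≤ (d - u) * d := mul_le_mul ha (by linarith) zero_le_one ha0.le
    linarith
  refine ⟨!![d - u, v + (d - u) * d; -1, -d], ?_, ?_⟩
  · intro i j
    fin_cases i <;> fin_cases j
    · exact sign_pos ha0
    · exact sign_pos hb
    · exact sign_neg (by norm_num)
    · exact sign_neg (neg_neg_of_pos hd0)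
  · rw [charpoly2]
    have h1 : u = -(d - u + -d) := by ring
    have h2 : v = (d - u) * -d - (v + (d - u) * d) * -1 := by ring
    conv_rhs => rw [h1, h2]
    simp only [C_neg]
    ring_nf

/-- The realization of `M₄` belonging to a suitable parameter `D`. -/
theorem realize_M4_of (E1 E2 E3 E4 D : ℝ) (hQ : 0 < D ^ 2 - E1 * D + E2) (hR : 0 < E4 - E3 * D) :
    ∃ A : Matrix (Fin 4) (Fin 4) ℝ, Realizes A M4 ∧
      A.charpoly = X ^ 4 - C E1 * X ^ 3 + C E2 * X ^ 2 - C E3 * X + C E4 := by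
  set Q := D ^ 2 - E1 * D + E2 with hQd
  set R := E4 - E3 * D with hRd
  have n1 := abs_nonneg E1
  have n2 := abs_nonneg E2
  have n3 := abs_nonneg E3
  have nD := abs_nonneg D
  have nq : 0 ≤ |E3| * Q / R := by positivity
  set e : ℝ := 1 + |E1| + |E2| + |D| + |E3| * Q / R with he
  have l1 := neg_abs_le E1
  have l2 := neg_abs_le E2
  have l3 := neg_abs_le E3
  have lD := neg_abs_le D
  have he0 : 1 + |E2| ≤ e := by linarith
  have ha0 : 1 ≤ e + E1 := by linarith
  have hd0 : 1 + |E3| * Q / R ≤ e + D := by linarith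
  have hd1 : 0 < e + D := by linarith
  have hW : 0 < (e + E1) * e + E2 := by
    have : 1 * (1 + |E2|) ≤ (e + E1) * e := mul_le_mul ha0 he0 (by linarith) (by linarith)
    linarith
  set V : ℝ := R / Q * (e + D) with hV
  have hV0 : 0 < V := by positivity
  have hU0 : 0 < V + E3 := by
    have h1 : R / Q * (1 + |E3| * Q / R) ≤ V :=
      mul_le_mul_of_nonneg_left hd0 (by positivity)
    have h2 : R / Q * (1 + |E3| * Q / R) = R / Q + |E3| := by
      field_simp
    have h3 : 0 < R / Q := by positivity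
    linarith
  have hb0 : 0 < ((e + E1) * e + E2) / (e + D) := by positivity
  have ha1 : 0 < e + E1 := by linarith
  have he1 : -e < 0 := by linarith
  refine ⟨!![e + E1, ((e + E1) * e + E2) / (e + D), -(V + E3), 0;
    -(e + D), -e, V, 0; 0, 0, 0, -1; 1, 1, 0, 0], ?_, ?_⟩
  · intro i j
    fin_cases i <;> fin_cases j
    · exact sign_pos ha1
    · exact sign_pos hb0
    · exact sign_neg (neg_neg_of_pos hU0)
    · exact sign_zero
    · exact sign_neg (neg_neg_of_pos hd1)
    · exact sign_neg he1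
    · exact sign_pos hV0
    · exact sign_zero
    · exact sign_zero
    · exact sign_zero
    · exact sign_zero
    · exact sign_neg (by norm_num)
    · exact sign_pos one_pos
    · exact sign_pos one_pos
    · exact sign_zero
    · exact sign_zero
  · rw [charpoly4]
    have h1 : E1 = e + E1 + -e := by ring
    have h2 : E2 = (e + E1) * -e - ((e + E1) * e + E2) / (e + D) * -(e + D) - 0 * 1 - V * 0 := by
      field_simp
      ring
    have h3 : E3 = -0 * ((e + E1) * V - -(V + E3) * -(e + D)) + 0 * (-(e + D) * 1 - -e * 1)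
        + -(V + E3) * -1 * 1 + V * -1 * 1 := by ring
    have h4 : E4 = -1 * (((e + E1) * e + E2) / (e + D) * V * -1 - -(V + E3) * -e * -1 - 0 * V * 0)
        + 1 * -1 * ((e + E1) * V - -(V + E3) * -(e + D)) := by
      have h5 : V * Q = R * (e + D) := by
        rw [hV]; field_simp
      have h6 : ((e + E1) * e + E2) / (e + D) * V = (e + E1) * V - D * V + R := by
        have : ((e + E1) * e + E2) / (e + D) * V * (e + D) = ((e + E1) * V - D * V + R) * (e + D) := by
          have h7 : ((e + E1) * e + E2) / (e + D) * V * (e + D) = ((e + E1) * e + E2) * V := by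
            field_simp
          rw [h7]
          have : R * (e + D) = V * (D ^ 2 - E1 * D + E2) := by rw [← hQd, h5]
          linear_combination -this
        exact mul_right_cancel₀ hd1.ne' this
      rw [h6, hRd]
      ring
    conv_rhs => rw [h1, h2, h3, h4]

/-- `M₄` realizes `x⁴ - E₁x³ + E₂x² - E₃x + E₄` if `E₃ ≠ 0`, or `E₄ > 0`, or all `E_i` are zero. -/
theorem realize_M4 (E1 E2 E3 E4 : ℝ)
    (h : E3 ≠ 0 ∨ 0 < E4 ∨ (E1 = 0 ∧ E2 = 0 ∧ E3 = 0 ∧ E4 = 0)) :
    ∃ A : Matrix (Fin 4) (Fin 4) ℝ, Realizes A M4 ∧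
      A.charpoly = X ^ 4 - C E1 * X ^ 3 + C E2 * X ^ 2 - C E3 * X + C E4 := by
  have n1 := abs_nonneg E1
  have n2 := abs_nonneg E2
  have l1 := neg_abs_le E1
  have l1' := le_abs_self E1
  have l2 := neg_abs_le E2
  have l4 := neg_abs_le E4
  have n4 := abs_nonneg E4
  -- the quadratic polynomial is positive at points of large absolute value
  have key : ∀ D : ℝ, 1 + |E1| + |E2| ≤ |D| → 0 < D ^ 2 - E1 * D + E2 := by
    intro D hD
    have h1 : E1 * D ≤ |E1| * |D| := by
      rw [← abs_mul]; exact le_abs_self _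
    have h2 : D ^ 2 = |D| * |D| := by rw [abs_mul_abs_self, sq]
    have h3 : |D| * (1 + |E2|) ≤ |D| * (|D| - |E1|) :=
      mul_le_mul_of_nonneg_left (by linarith) (abs_nonneg D)
    nlinarith
  rcases lt_trichotomy E3 0 with h3 | h3 | h3
  · -- `D` is large and positive
    set D : ℝ := 1 + |E1| + |E2| + |E4| / -E3 with hD
    have hq : 0 ≤ |E4| / -E3 := div_nonneg n4 (by linarith)
    have hDp : 0 < D := by linarith
    refine realize_M4_of E1 E2 E3 E4 D (key D (by rw [abs_of_pos hDp]; linarith)) ?_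
    have h4 : |E4| / -E3 * -E3 = |E4| := div_mul_cancel₀ _ (by linarith)
    have h5 : -E3 * 1 ≤ -E3 * (D - |E4| / -E3) :=
      mul_le_mul_of_nonneg_left (by linarith) (by linarith)
    nlinarith
  · subst h3
    rcases h with h | h | ⟨rfl, rfl, -, rfl⟩
    · exact absurd rfl h
    · refine realize_M4_of E1 E2 0 E4 (1 + |E1| + |E2|) (key _ (le_abs_self _)) (by linarith)
    · refine ⟨!![1, 1, -1, 0; -1, -1, 1, 0; 0, 0, 0, -1; 1, 1, 0, 0], ?_, ?_⟩
      · intro i j
        fin_cases i <;> fin_cases j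
        · exact sign_pos one_pos
        · exact sign_pos one_pos
        · exact sign_neg (by norm_num)
        · exact sign_zero
        · exact sign_neg (by norm_num)
        · exact sign_neg (by norm_num)
        · exact sign_pos one_pos
        · exact sign_zero
        · exact sign_zero
        · exact sign_zero
        · exact sign_zero
        · exact sign_neg (by norm_num)
        · exact sign_pos one_pos
        · exact sign_pos one_pos
        · exact sign_zero
        · exact sign_zero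
      · rw [charpoly4]
        norm_num
  · -- `D` is large and negative
    set D : ℝ := -(1 + |E1| + |E2| + |E4| / E3) with hD
    have hq : 0 ≤ |E4| / E3 := div_nonneg n4 (by linarith)
    have hDp : D < 0 := by linarith
    refine realize_M4_of E1 E2 E3 E4 D (key D (by rw [abs_of_neg hDp]; linarith)) ?_
    have h4 : |E4| / E3 * E3 = |E4| := div_mul_cancel₀ _ (by linarith)
    have h5 : E3 * 1 ≤ E3 * (-D - |E4| / E3) :=
      mul_le_mul_of_nonneg_left (by linarith) (by linarith)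
    nlinarith

/-- The polynomial `x² + a x + b`. -/
noncomputable def P (a b : ℝ) : ℝ[X] := X ^ 2 + C a * X + C b

theorem P_split {a b r s : ℝ} (h1 : a = -(r + s)) (h2 : b = r * s) :
    P a b = (X - C r) * (X - C s) := by
  unfold P
  rw [h1, h2]
  simp only [C_neg, C_add, C_mul]
  ring

/-- The product of `x² + a x + b` and `x² + a' x + b'` is realized by `M₄`. -/
def Good (a b a' b' : ℝ) : Prop :=
  a * b' + a' * b ≠ 0 ∨ 0 < b * b' ∨ (a = 0 ∧ b = 0 ∧ a' = 0 ∧ b' = 0)

theorem realize_good (a b a' b' : ℝ) (h : Good a b a' b') :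
    ∃ A : Matrix (Fin 4) (Fin 4) ℝ, Realizes A M4 ∧ A.charpoly = P a b * P a' b' := by
  obtain ⟨A, h1, h2⟩ := realize_M4 (-(a + a')) (b + b' + a * a') (-(a * b' + a' * b)) (b * b') (by
    rcases h with h | h | ⟨rfl, rfl, rfl, rfl⟩
    · exact Or.inl (neg_ne_zero.2 h)
    · exact Or.inr (Or.inl h)
    · exact Or.inr (Or.inr (by norm_num)))
  refine ⟨A, h1, ?_⟩
  rw [h2]
  unfold P
  simp only [C_neg, C_add, C_mul]
  ring

/-- The case where one of the three quadratic polynomials vanishes at `0`. -/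
theorem factor_zero (a1 b1 a2 b2 a3 : ℝ) : ∃ a b a' b' u v : ℝ, Good a b a' b' ∧
    P a1 b1 * P a2 b2 * P a3 0 = P a b * P a' b' * P u v := by
  -- the sub-case `b₁ ≠ 0`, `b₂ < 0`, `a₃ = 0`
  have neg : ∀ a1 b1 a2 b2 : ℝ, b1 ≠ 0 → b2 < 0 → ∃ a b a' b' u v : ℝ, Good a b a' b' ∧
      P a1 b1 * P a2 b2 * P 0 0 = P a b * P a' b' * P u v := by
    intro a1 b1 a2 b2 h1 h2
    have hdisc : 0 < a2 ^ 2 - 4 * b2 := by nlinarith [sq_nonneg a2]
    set w := √(a2 ^ 2 - 4 * b2) with hw
    have hw2 : w ^ 2 = a2 ^ 2 - 4 * b2 := Real.sq_sqrt hdisc.le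
    set r := (-a2 + w) / 2 with hr
    set s := (-a2 - w) / 2 with hs
    have e1 : a2 = -(r + s) := by rw [hr, hs]; ring
    have e2 : b2 = r * s := by rw [hr, hs]; nlinarith
    have hs0 : s ≠ 0 := by
      rintro h0
      rw [h0, mul_zero] at e2
      exact h2.ne e2
    refine ⟨-s, 0, a1, b1, -r, 0, Or.inl ?_, ?_⟩
    · rw [mul_zero, add_zero]
      exact mul_ne_zero (neg_ne_zero.2 hs0) h1
    · rw [P_split e1 e2]
      unfold P
      simp only [C_neg, C_0]
      ring
  by_cases h1 : b1 = 0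
  · by_cases h2 : b2 = 0
    · subst h1 h2
      by_cases g1 : a1 = 0
      · refine ⟨0, 0, 0, 0, a2 + a3, a2 * a3, Or.inr (Or.inr ⟨rfl, rfl, rfl, rfl⟩), ?_⟩
        subst g1
        unfold P
        simp only [C_0, C_add, C_mul]
        ring
      by_cases g2 : a2 = 0
      · refine ⟨0, 0, 0, 0, a1 + a3, a1 * a3, Or.inr (Or.inr ⟨rfl, rfl, rfl, rfl⟩), ?_⟩
        subst g2
        unfold P
        simp only [C_0, C_add, C_mul]
        ring
      by_cases g3 : a3 = 0
      · refine ⟨0, 0, 0, 0, a1 + a2, a1 * a2, Or.inr (Or.inr ⟨rfl, rfl, rfl, rfl⟩), ?_⟩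
        subst g3
        unfold P
        simp only [C_0, C_add, C_mul]
        ring
      refine ⟨a1, 0, a2 + a3, a2 * a3, 0, 0, Or.inl ?_, ?_⟩
      · rw [mul_zero, add_zero]
        exact mul_ne_zero g1 (mul_ne_zero g2 g3)
      · unfold P
        simp only [C_0, C_add, C_mul]
        ring
    · subst h1
      by_cases g1 : a1 = 0
      · by_cases g3 : a3 = 0
        · refine ⟨a1, 0, a3, 0, a2, b2, Or.inr (Or.inr ⟨g1, rfl, g3, rfl⟩), by ring⟩
        · refine ⟨a3, 0, a2, b2, a1, 0, Or.inl ?_, by ring⟩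
          rw [mul_zero, add_zero]
          exact mul_ne_zero g3 h2
      · refine ⟨a1, 0, a2, b2, a3, 0, Or.inl ?_, by ring⟩
        rw [mul_zero, add_zero]
        exact mul_ne_zero g1 h2
  · by_cases h2 : b2 = 0
    · subst h2
      by_cases g2 : a2 = 0
      · by_cases g3 : a3 = 0
        · refine ⟨a2, 0, a3, 0, a1, b1, Or.inr (Or.inr ⟨g2, rfl, g3, rfl⟩), by ring⟩
        · refine ⟨a3, 0, a1, b1, a2, 0, Or.inl ?_, by ring⟩
          rw [mul_zero, add_zero]
          exact mul_ne_zero g3 h1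
      · refine ⟨a2, 0, a1, b1, a3, 0, Or.inl ?_, by ring⟩
        rw [mul_zero, add_zero]
        exact mul_ne_zero g2 h1
    · by_cases g3 : a3 = 0
      · subst g3
        rcases lt_or_gt_of_ne h2 with h2' | h2'
        · exact neg a1 b1 a2 b2 h1 h2'
        · rcases lt_or_gt_of_ne h1 with h1' | h1'
          · obtain ⟨a, b, a', b', u, v, k1, k2⟩ := neg a2 b2 a1 b1 h2 h1'
            refine ⟨a, b, a', b', u, v, k1, ?_⟩
            rw [← k2]
            ring
          · exact ⟨a1, b1, a2, b2, 0, 0, Or.inr (Or.inl (mul_pos h1' h2')), rfl⟩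
      · refine ⟨a3, 0, a1, b1, a2, b2, Or.inl ?_, by ring⟩
        rw [mul_zero, add_zero]
        exact mul_ne_zero g3 h1

/-- Every product of three quadratic polynomials is the product of a polynomial realized by `M₄` and
a quadratic polynomial. -/
theorem factor (a1 b1 a2 b2 a3 b3 : ℝ) : ∃ a b a' b' u v : ℝ, Good a b a' b' ∧
    P a1 b1 * P a2 b2 * P a3 b3 = P a b * P a' b' * P u v := by
  by_cases h3 : b3 = 0
  · subst h3; exact factor_zero a1 b1 a2 b2 a3
  by_cases h2 : b2 = 0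
  · subst h2
    obtain ⟨a, b, a', b', u, v, k1, k2⟩ := factor_zero a1 b1 a3 b3 a2
    exact ⟨a, b, a', b', u, v, k1, by rw [← k2]; ring⟩
  by_cases h1 : b1 = 0
  · subst h1
    obtain ⟨a, b, a', b', u, v, k1, k2⟩ := factor_zero a2 b2 a3 b3 a1
    exact ⟨a, b, a', b', u, v, k1, by rw [← k2]; ring⟩
  rcases lt_or_gt_of_ne h1 with h1' | h1' <;> rcases lt_or_gt_of_ne h2 with h2' | h2' <;>
    rcases lt_or_gt_of_ne h3 with h3' | h3'
  · exact ⟨a1, b1, a2, b2, a3, b3, Or.inr (Or.inl (mul_pos_of_neg_of_neg h1' h2')), rfl⟩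
  · exact ⟨a1, b1, a2, b2, a3, b3, Or.inr (Or.inl (mul_pos_of_neg_of_neg h1' h2')), rfl⟩
  · exact ⟨a1, b1, a3, b3, a2, b2, Or.inr (Or.inl (mul_pos_of_neg_of_neg h1' h3')), by ring⟩
  · exact ⟨a2, b2, a3, b3, a1, b1, Or.inr (Or.inl (mul_pos h2' h3')), by ring⟩
  · exact ⟨a2, b2, a3, b3, a1, b1, Or.inr (Or.inl (mul_pos_of_neg_of_neg h2' h3')), by ring⟩
  · exact ⟨a1, b1, a3, b3, a2, b2, Or.inr (Or.inl (mul_pos h1' h3')), by ring⟩
  · exact ⟨a1, b1, a2, b2, a3, b3, Or.inr (Or.inl (mul_pos h1' h2')), rfl⟩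
  · exact ⟨a1, b1, a2, b2, a3, b3, Or.inr (Or.inl (mul_pos h1' h2')), rfl⟩

/-- `M₄ ⊕ T₂` is spectrally arbitrary. -/
theorem S_arbitrary : SpectrallyArbitrary S := by
  intro p hp hd
  have hp6 : IsMonicOfDegree p (4 + 2) := ⟨hd, hp⟩
  obtain ⟨q1, r1, hq1, hr1, rfl⟩ := hp6.eq_isMonicOfDegree_two_mul_isMonicOfDegree
  obtain ⟨q2, q3, hq2, hq3, rfl⟩ :=
    IsMonicOfDegree.eq_isMonicOfDegree_two_mul_isMonicOfDegree (n := 2) hr1
  obtain ⟨a1, b1, rfl⟩ := isMonicOfDegree_two_iff.1 hq1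
  obtain ⟨a2, b2, rfl⟩ := isMonicOfDegree_two_iff.1 hq2
  obtain ⟨a3, b3, rfl⟩ := isMonicOfDegree_two_iff.1 hq3
  obtain ⟨a, b, a', b', u, v, k1, k2⟩ := factor a1 b1 a2 b2 a3 b3
  obtain ⟨A, hA1, hA2⟩ := realize_good a b a' b' k1
  obtain ⟨B, hB1, hB2⟩ := realize_T2 u v
  let e : Fin 4 ⊕ Fin 2 ≃ Fin 6 := finSumFinEquiv
  refine ⟨Matrix.reindex e e (Matrix.fromBlocks A 0 0 B), ?_, ?_⟩
  · intro i j
    obtain ⟨i, rfl⟩ := e.surjective i
    obtain ⟨j, rfl⟩ := e.surjective j
    rw [Matrix.reindex_apply, Matrix.submatrix_apply, Equiv.symm_apply_apply,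
      Equiv.symm_apply_apply]
    rcases i with i | i <;> rcases j with j | j
    · rw [Matrix.fromBlocks_apply₁₁, hA1 i j]
      fin_cases i <;> fin_cases j <;> rfl
    · rw [Matrix.fromBlocks_apply₁₂, Matrix.zero_apply, sign_zero]
      fin_cases i <;> fin_cases j <;> rfl
    · rw [Matrix.fromBlocks_apply₂₁, Matrix.zero_apply, sign_zero]
      fin_cases i <;> fin_cases j <;> rfl
    · rw [Matrix.fromBlocks_apply₂₂, hB1 i j]
      fin_cases i <;> fin_cases j <;> rfl
  · rw [Matrix.charpoly_reindex, Matrix.charpoly_fromBlocks_zero₁₂, hA2, hB2]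
    unfold P at k2
    unfold P
    rw [← k2]
    ring

/-- No realization of `M₄'` is nilpotent. -/
theorem M4'_not_nilpotent (A : Matrix (Fin 4) (Fin 4) ℝ) (hA : Realizes A M4') :
    A.charpoly ≠ X ^ 4 := by
  intro hchar
  have a0 : 0 < A 0 0 := sign_eq_one_iff.1 (hA 0 0)
  have b0 : 0 < A 0 1 := sign_eq_one_iff.1 (hA 0 1)
  have c0 : A 0 2 < 0 := sign_eq_neg_one_iff.1 (hA 0 2)
  have p0 : 0 < A 0 3 := sign_eq_one_iff.1 (hA 0 3)
  have d0 : A 1 0 < 0 := sign_eq_neg_one_iff.1 (hA 1 0)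
  have e0 : A 1 1 < 0 := sign_eq_neg_one_iff.1 (hA 1 1)
  have f0 : 0 < A 1 2 := sign_eq_one_iff.1 (hA 1 2)
  have z1 : A 1 3 = 0 := sign_eq_zero_iff.1 (hA 1 3)
  have z2 : A 2 0 = 0 := sign_eq_zero_iff.1 (hA 2 0)
  have q0 : 0 < A 2 1 := sign_eq_one_iff.1 (hA 2 1)
  have z3 : A 2 2 = 0 := sign_eq_zero_iff.1 (hA 2 2)
  have g0 : A 2 3 < 0 := sign_eq_neg_one_iff.1 (hA 2 3)
  have h0 : 0 < A 3 0 := sign_eq_one_iff.1 (hA 3 0)
  have k0 : 0 < A 3 1 := sign_eq_one_iff.1 (hA 3 1)
  have z4 : A 3 2 = 0 := sign_eq_zero_iff.1 (hA 3 2)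
  have z5 : A 3 3 = 0 := sign_eq_zero_iff.1 (hA 3 3)
  have hAeq : A = !![A 0 0, A 0 1, A 0 2, A 0 3; A 1 0, A 1 1, A 1 2, 0; 0, A 2 1, 0, A 2 3;
      A 3 0, A 3 1, 0, 0] := by
    ext i j
    fin_cases i <;> fin_cases j <;> first
      | rfl
      | exact z1
      | exact z2
      | exact z3
      | exact z4
      | exact z5
  generalize A 0 0 = a at *
  generalize A 0 1 = b at *
  generalize A 0 2 = c at *
  generalize A 0 3 = p at *
  generalize A 1 0 = d at *
  generalize A 1 1 = e at *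
  generalize A 1 2 = f at *
  generalize A 2 1 = q at *
  generalize A 2 3 = g at *
  generalize A 3 0 = h at *
  generalize A 3 1 = k at *
  rw [hAeq, charpoly4] at hchar
  set F1 := a + e with hF1
  set F2 := a * e - b * d - p * h - f * q with hF2
  set F3 := -q * (a * f - c * d) + p * (d * k - e * h) + c * g * h + f * g * k with hF3
  set F4 := -h * (b * f * g - c * e * g - p * f * q) + k * g * (a * f - c * d) with hF4
  have hp : X ^ 4 - C F1 * X ^ 3 + C F2 * X ^ 2 - C F3 * X + C F4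
      = (X ^ 4 + C (-F1) * X ^ 3 + C F2 * X ^ 2 + C (-F3) * X ^ 1 + C F4 * X ^ 0 : ℝ[X]) := by
    simp only [C_neg]
    ring
  rw [hp] at hchar
  have e1 : F1 = 0 := by
    have := congrArg (fun t => Polynomial.coeff t 3) hchar
    simp [Polynomial.coeff_X_pow] at this
    exact this
  have e2 : F2 = 0 := by
    have := congrArg (fun t => Polynomial.coeff t 2) hchar
    simpa [Polynomial.coeff_X_pow, Polynomial.coeff_X] using this
  have e3 : F3 = 0 := by
    have := congrArg (fun t => Polynomial.coeff t 1) hchar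
    simpa [Polynomial.coeff_X_pow, Polynomial.coeff_X] using this
  have e4 : F4 = 0 := by
    have := congrArg (fun t => Polynomial.coeff t 0) hchar
    simpa [Polynomial.coeff_X_pow, Polynomial.coeff_X] using this
  -- the contradiction
  clear hp hchar hAeq
  rw [hF1] at e1
  rw [hF2] at e2
  rw [hF3] at e3
  rw [hF4] at e4
  clear hF1 hF2 hF3 hF4 F1 F2 F3 F4
  obtain rfl : e = -a := by linarith
  set u := c * d - a * f with hu
  set v := -(d * k) - a * h with hv
  have dq : 0 < -(d * q) := neg_pos.2 (mul_neg_of_neg_of_pos d0 q0)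
  have gh : 0 < -(g * h) := neg_pos.2 (mul_neg_of_neg_of_pos g0 h0)
  have dp : 0 < -(d * p) := neg_pos.2 (mul_neg_of_neg_of_pos d0 p0)
  have gf : 0 < -(g * f) := neg_pos.2 (mul_neg_of_neg_of_pos g0 f0)
  have huv : u * (-(d * q) + -(g * h)) = v * (-(d * p) + -(g * f)) := by
    rw [hu, hv]
    linear_combination (-d) * e3
  have hnn : 0 ≤ u * v := by
    by_contra hneg
    have h1 := mul_neg_of_neg_of_pos (not_le.1 hneg) (add_pos dp gf)
    have h2 : u * v * (-(d * p) + -(g * f)) = u ^ 2 * (-(d * q) + -(g * h)) := by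
      linear_combination (-u) * huv
    rw [h2] at h1
    exact absurd h1 (not_lt.2 (mul_nonneg (sq_nonneg u) (add_pos dq gh).le))
  have h4 : 0 = -g * (u * v) + -(g * h) * f * (p * h + f * q) + -(d * q) * (p * f * h) := by
    rw [hu, hv]
    linear_combination d * e4 - (h * f * g) * e2
  have h5 : 0 ≤ -g * (u * v) := mul_nonneg (neg_pos.2 g0).le hnn
  have h6 : 0 < -(g * h) * f * (p * h + f * q) := by positivity
  have h7 : 0 < -(d * q) * (p * f * h) := by positivity
  linarith

/-- No realization of `M₄' ⊕ T₂` is nilpotent. -/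
theorem S'_not_nilpotent (A : Matrix (Fin 6) (Fin 6) ℝ) (hA : Realizes A S') :
    A.charpoly ≠ X ^ 6 := by
  intro hchar
  let e : Fin 4 ⊕ Fin 2 ≃ Fin 6 := finSumFinEquiv
  have hA' : ∀ i j, SignType.sign (A (e i) (e j)) = S' (e i) (e j) := fun i j => hA _ _
  set B : Matrix (Fin 4 ⊕ Fin 2) (Fin 4 ⊕ Fin 2) ℝ := A.submatrix e e with hB
  have hAB : A = Matrix.reindex e e B := by
    ext i j
    simp [hB]
  have h12 : B.toBlocks₁₂ = 0 := by
    ext i j
    apply sign_eq_zero_iff.1
    refine (hA' (Sum.inl i) (Sum.inr j)).trans ?_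
    fin_cases i <;> fin_cases j <;> rfl
  have hB2 : B = Matrix.fromBlocks B.toBlocks₁₁ 0 B.toBlocks₂₁ B.toBlocks₂₂ := by
    rw [← h12, Matrix.fromBlocks_toBlocks]
  have hR : Realizes B.toBlocks₁₁ M4' := by
    intro i j
    refine (hA' (Sum.inl i) (Sum.inl j)).trans ?_
    fin_cases i <;> fin_cases j <;> rfl
  have hdvd : B.toBlocks₁₁.charpoly ∣ X ^ 6 := by
    rw [← hchar, hAB, Matrix.charpoly_reindex, hB2, Matrix.charpoly_fromBlocks_zero₁₂]
    exact Dvd.intro _ rfl
  obtain ⟨i, _, hi⟩ := (dvd_prime_pow prime_X 6).1 hdvd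
  have heq := eq_of_monic_of_associated (Matrix.charpoly_monic _) (monic_X_pow i) hi
  have hdeg := congrArg Polynomial.natDegree heq
  rw [Matrix.charpoly_natDegree_eq_dim, natDegree_X_pow, Fintype.card_fin] at hdeg
  subst hdeg
  exact M4'_not_nilpotent _ hR heq

/-- `M₄' ⊕ T₂` is not spectrally arbitrary. -/
theorem S'_not_arbitrary : ¬ SpectrallyArbitrary S' := by
  intro h
  obtain ⟨A, hA, hchar⟩ := h (X ^ 6) (monic_X_pow 6) (natDegree_X_pow 6)
  exact S'_not_nilpotent A hA hchar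

theorem agree : ∀ i j, S i j = 0 ∨ S' i j = S i j := by decide

theorem isSuperpattern : IsSuperpattern S' S := fun i j h => (agree i j).resolve_left h

/-- The sign pattern `S = M₄ ⊕ T₂` is spectrally arbitrary, and its superpattern `S' = M₄' ⊕ T₂` is
not: no realization of `S'` has the characteristic polynomial `x^6`. -/
theorem result : SpectrallyArbitrary S ∧ IsSuperpattern S' S ∧ ¬ SpectrallyArbitrary S' ∧
    ∀ A : Matrix (Fin 6) (Fin 6) ℝ, Realizes A S' → A.charpoly ≠ X ^ 6 :=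
  ⟨S_arbitrary, isSuperpattern, S'_not_arbitrary, S'_not_nilpotent⟩

end Pool.Agent.Results.MP_557f7f_co.SpectralSuperpattern
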